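import Mathlib
import Pool.Agent.Y918.RT.Vsp

set_option autoImplicit false

/-!
# Multiples of powers: the polynomials `P` with algebraic `exp (λ P(T))`
-/

namespace Pool.Agent.Y918.RP

open Module Finset
open Pool.Agent.Y918.RT (VA mem_VA)

/-- The necessary property of a sequence. -/
def Half (X : ℕ → ℂ) (k : ℕ) : Prop :=
  ∀ a M : ℕ, a + M ≤ k → 2 * finrank ℚ (VA (fun i : Fin M => X (a + (i : ℕ)))) ≤ M + 3

theorem half_pow {T lam : ℂ} {k : ℕ} (hT : ∀ q : ℚ, T ≠ q) (hlam : lam ≠ 0)
    (hli : LinearIndependent ℚ (fun i : Fin k => T ^ (i : ℕ))) :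
    Half (fun i => lam * T ^ i) k := by
  intro a M haM
  cases M with
  | zero =>
    change 2 * finrank ℚ (VA (fun i : Fin 0 => lam * T ^ (a + (i : ℕ)))) ≤ 0 + 3
    have h1 := Submodule.finrank_le (VA (fun i : Fin 0 => lam * T ^ (a + (i : ℕ))))
    rw [Module.finrank_fintype_fun_eq_card, Fintype.card_fin] at h1
    omega
  | succ m =>
    set V := VA (fun i : Fin (m + 1) => lam * T ^ (a + (i : ℕ))) with hV
    let s0 : (Fin m → ℚ) →ₗ[ℚ] (Fin (m + 1) → ℚ) :=
      { toFun := fun q => Fin.snoc q 0
        map_add' := by
          intro p q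
          funext j
          refine Fin.lastCases ?_ (fun j => ?_) j
          · simp
          · simp
        map_smul' := by
          intro c q
          funext j
          refine Fin.lastCases ?_ (fun j => ?_) j
          · simp
          · simp }
    let s1 : (Fin m → ℚ) →ₗ[ℚ] (Fin (m + 1) → ℚ) :=
      { toFun := fun q => Fin.cons 0 q
        map_add' := by
          intro p q
          funext j
          refine Fin.cases ?_ (fun j => ?_) j
          · simp
          · simp
        map_smul' := by
          intro c q
          funext j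
          refine Fin.cases ?_ (fun j => ?_) j
          · simp
          · simp }
    let φ : (Fin m → ℚ) →ₗ[ℚ] ((Fin (m + 1) → ℚ) ⧸ V) × ((Fin (m + 1) → ℚ) ⧸ V) :=
      (V.mkQ.comp s0).prod (V.mkQ.comp s1)
    have hli' : LinearIndependent ℚ (fun i : Fin m => lam * T ^ (a + (i : ℕ))) := by
      have h1 : LinearIndependent ℚ (fun i : Fin m => T ^ (a + (i : ℕ))) :=
        hli.comp (fun i : Fin m => (⟨a + (i : ℕ), by omega⟩ : Fin k)) (fun i j h => by
          have := congrArg Fin.val h
          exact Fin.ext (Nat.add_left_cancel this))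
      exact h1.map' (LinearMap.mulLeft ℚ lam)
        (LinearMap.ker_eq_bot.2 (mul_right_injective₀ hlam))
    have hinj : Function.Injective
        (Fintype.linearCombination ℚ (fun i : Fin m => lam * T ^ (a + (i : ℕ)))) := by
      rw [injective_iff_map_eq_zero]
      intro q hq
      rw [Fintype.linearCombination_apply] at hq
      funext i
      exact Fintype.linearIndependent_iff.1 hli' q hq i
    have hker : finrank ℚ (LinearMap.ker φ) ≤ 2 := by
      by_contra hcon
      push Not at hcon
      obtain ⟨f, hf⟩ := exists_linearIndependent_of_le_finrank (R := ℚ)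
        (M := LinearMap.ker φ) (n := 3) hcon
      have hf' : LinearIndependent ℚ (fun l => ((f l : LinearMap.ker φ) : Fin m → ℚ)) :=
        hf.map' (LinearMap.ker φ).subtype (Submodule.ker_subtype _)
      set L := Fintype.linearCombination ℚ (fun i : Fin m => lam * T ^ (a + (i : ℕ))) with hL
      have hy : LinearIndependent ℚ (fun l => L ((f l : LinearMap.ker φ) : Fin m → ℚ)) :=
        hf'.map' L (LinearMap.ker_eq_bot.2 hinj)
      have hmem : ∀ l, s0 (f l) ∈ V ∧ s1 (f l) ∈ V := by
        intro l
        have h1 := (f l).2
        rw [LinearMap.mem_ker] at h1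
        have h2 := congrArg Prod.fst h1
        have h3 := congrArg Prod.snd h1
        exact ⟨(Submodule.Quotient.mk_eq_zero V).1 h2, (Submodule.Quotient.mk_eq_zero V).1 h3⟩
      refine Pool.Agent.W342.GEL.six_contra (β := T) hT _ hy ?_ ?_
      · intro l
        have h1 := (mem_VA _ _).1 (hmem l).1
        convert h1 using 2
        rw [hL, Fintype.linearCombination_apply, Fin.sum_univ_castSucc]
        simp [s0, Rat.smul_def]
      · intro l
        have h1 := (mem_VA _ _).1 (hmem l).2
        convert h1 using 2
        rw [hL, Fintype.linearCombination_apply, Fin.sum_univ_succ, Finset.mul_sum]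
        simp only [s1, LinearMap.coe_mk, AddHom.coe_mk, Fin.cons_zero, Rat.cast_zero, zero_mul,
          zero_add, Fin.cons_succ, Rat.smul_def]
        refine Finset.sum_congr rfl fun i _ => ?_
        rw [Fin.val_succ]
        ring
    have h1 := LinearMap.finrank_range_add_finrank_ker φ
    have h2 : finrank ℚ (LinearMap.range φ) ≤
        finrank ℚ (((Fin (m + 1) → ℚ) ⧸ V) × ((Fin (m + 1) → ℚ) ⧸ V)) :=
      Submodule.finrank_le _
    rw [Module.finrank_prod] at h2
    have h3 := Submodule.finrank_quotient_add_finrank V
    rw [Module.finrank_fintype_fun_eq_card, Fintype.card_fin] at h3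
    rw [Module.finrank_fintype_fun_eq_card, Fintype.card_fin] at h1
    omega

theorem half_pow_transcendental {T lam : ℂ} (hT : Transcendental ℚ T) (hlam : lam ≠ 0) (k : ℕ) :
    Half (fun i => lam * T ^ i) k := by
  apply half_pow _ hlam
  · have h1 := Pool.Agent.Y918.RT.pow_inj hT 0 k
    rw [Fintype.linearIndependent_iff]
    intro g hg i
    have h2 : Fintype.linearCombination ℚ (fun i : Fin k => T ^ (0 + (i : ℕ))) g =
        Fintype.linearCombination ℚ (fun i : Fin k => T ^ (0 + (i : ℕ))) 0 := by
      rw [Fintype.linearCombination_apply, map_zero, ← hg]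
      refine Finset.sum_congr rfl fun i _ => ?_
      rw [zero_add]
    have h3 := h1 h2
    rw [h3]
    rfl
  · intro q hq
    apply hT
    rw [hq]
    exact isAlgebraic_algebraMap q

end Pool.Agent.Y918.RP
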