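import Mathlib
import Pool.Agent.Y918.RT.Step
import Pool.Agent.Y918.RP.Vx

set_option autoImplicit false

/-!
# One step with a general sequence
-/

namespace Pool.Agent.Y918.RP

open Module Finset
open Pool.Agent.H301R2.SSE (QB mem_QB)
open Pool.Agent.W245 (IndepOver)
open Pool.Agent.Y918.RT (VA mem_VA card_coset idx idx_inl mcube box)

theorem sum_idx {G M R k : ℕ} (h : G * M + R = k) (P : Fin k → ℚ) (X : ℕ → ℂ) :
    ∑ i, (P i : ℂ) * X (i : ℕ) =
      (∑ g, ∑ j, (P (idx G M R k h (Sum.inl (g, j))) : ℂ) * X (M * (g : ℕ) + (j : ℕ))) +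
      ∑ l, (P (idx G M R k h (Sum.inr l)) : ℂ) * X (idx G M R k h (Sum.inr l) : ℕ) := by
  rw [← (idx G M R k h).sum_comp, Fintype.sum_sum_type, Fintype.sum_prod_type]
  congr 1
  refine Finset.sum_congr rfl fun g _ => Finset.sum_congr rfl fun j _ => ?_
  rw [idx_inl]

open Classical in
theorem stepX (N D : ℕ) : ∃ (k₀ C : ℕ) (δ : ℝ), 0 < δ ∧ δ ≤ 1 / 4 ∧ ∀ k ≥ k₀, ∀ A : Finset ℚ,
    A.Nonempty → ∀ W : Submodule QB ℂ, Module.Finite QB W → finrank QB W ≤ N →
    ∀ X : ℕ → ℂ, Half X k → ∀ ζ : ℂ,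
    (((Fintype.piFinset fun _ : Fin k => A).filter (fun P : Fin k → ℚ => ¬ IndepOver W
      (fun e : Fin (D + 1) => Complex.exp (ζ + ∑ i : Fin k, (P i : ℂ) * X (i : ℕ)) ^
        (e : ℕ)))).card : ℝ) ≤
      C * (A.card : ℝ) ^ ((k : ℝ) - δ * k) := by
  obtain ⟨G, hG0, hG⟩ := mcube N D
  set δ : ℝ := (1 / 2 : ℝ) ^ G / (4 * G) with hδ
  have hGr : (1 : ℝ) ≤ G := by exact_mod_cast hG0
  have hδ0 : 0 < δ := by positivity
  have hδ1 : δ ≤ 1 / 4 := by
    rw [hδ, div_le_iff₀ (by positivity)]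
    have h1 : ((1 / 2 : ℝ) ^ G) ≤ 1 := pow_le_one₀ (by norm_num) (by norm_num)
    nlinarith
  refine ⟨8 * G, G, δ, hδ0, hδ1, fun k hk A hA W hW hWN X hX ζ => ?_⟩
  set M : ℕ := k / G with hM
  have hGM : G * M ≤ k := Nat.mul_div_le k G
  have hM8 : 8 ≤ M := by
    rw [hM, Nat.le_div_iff_mul_le hG0]
    omega
  have hkM : k < G * (M + 1) := by
    rw [hM]
    exact Nat.lt_mul_div_succ k hG0
  obtain ⟨R, hR⟩ : ∃ R, G * M + R = k := ⟨k - G * M, by omega⟩
  set a : ℝ := (A.card : ℝ) with ha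
  have ha1 : 1 ≤ a := by
    rw [ha]
    exact_mod_cast hA.card_pos
  set c : ℕ := M - (M + 3) / 2 with hc
  set ρ : ℝ := (a ^ c)⁻¹ with hρ
  have hac : 1 ≤ a ^ c := one_le_pow₀ ha1
  have hρ0 : 0 < ρ := by positivity
  have hρ1 : ρ ≤ 1 := inv_le_one_of_one_le₀ hac
  set XA : Finset (Fin M → ℚ) := Fintype.piFinset fun _ => A with hXA
  have hXAc : (XA.card : ℝ) = a ^ M := by
    rw [hXA, Fintype.card_piFinset_const]
    push_cast
    rfl
  let V : Fin G → Submodule ℚ (Fin M → ℚ) := fun g => VA (fun j : Fin M => X (M * (g : ℕ) + (j : ℕ)))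
  let r : Fin G → (Fin M → ℚ) → (Fin M → ℚ) → Prop := fun g u v => v - u ∈ V g
  have hr : ∀ g, ∀ u ∈ XA, ((XA.filter (fun v => r g u v)).card : ℝ) ≤ ρ * XA.card := by
    intro g u _
    have h1 : (XA.filter (fun v => r g u v)).card ≤ A.card ^ finrank ℚ (V g) :=
      card_coset (V g) A u
    have h2 : 2 * finrank ℚ (V g) ≤ M + 3 := hX (M * (g : ℕ)) M (by
      have h4 : (g : ℕ) + 1 ≤ G := g.2
      have h5 := Nat.mul_le_mul_left M h4
      rw [Nat.mul_add, mul_one, mul_comm M G] at h5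
      omega)
    have h3 : ((XA.filter (fun v => r g u v)).card : ℝ) ≤ a ^ finrank ℚ (V g) := by
      rw [ha]
      exact_mod_cast h1
    refine h3.trans ?_
    rw [hXAc, hρ, inv_mul_eq_div, le_div_iff₀ (by positivity), ← pow_add]
    exact pow_le_pow_right₀ ha1 (by omega)
  set bad : (Fin k → ℚ) → Prop := fun P => ¬ IndepOver W
      (fun e : Fin (D + 1) => Complex.exp (ζ + ∑ i, (P i : ℂ) * X (i : ℕ)) ^ (e : ℕ)) with hbad
  set B := (Fintype.piFinset fun _ : Fin k => A).filter (fun P => bad P) with hB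
  let E := idx G M R k hR
  let asm : (Fin G → Fin M → ℚ) → (Fin R → ℚ) → (Fin k → ℚ) := fun x y i =>
    Sum.elim (fun p : Fin G × Fin M => x p.1 p.2) y (E.symm i)
  have hasm1 : ∀ x y g j, asm x y (E (Sum.inl (g, j))) = x g j := by
    intro x y g j
    simp [asm]
  have hasm2 : ∀ x y l, asm x y (E (Sum.inr l)) = y l := by
    intro x y l
    simp [asm]
  let YR : Finset (Fin R → ℚ) := Fintype.piFinset fun _ => A
  let By : (Fin R → ℚ) → Finset (Fin G → Fin M → ℚ) := fun y =>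
    (Fintype.piFinset fun _ : Fin G => XA).filter (fun x => bad (asm x y))
  have hfib : B.card = ∑ y ∈ YR, (B.filter (fun P => (fun l => P (E (Sum.inr l))) = y)).card := by
    apply Finset.card_eq_sum_card_fiberwise
    intro P hP
    have h1 := Fintype.mem_piFinset.1 (Finset.mem_filter.1 hP).1
    exact Fintype.mem_piFinset.2 (fun l => h1 _)
  have hle1 : ∀ y ∈ YR, (B.filter (fun P => (fun l => P (E (Sum.inr l))) = y)).card ≤ (By y).card := by
    intro y _
    apply Finset.card_le_card_of_injOn (fun P g j => P (E (Sum.inl (g, j))))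
    · intro P hP
      rw [Finset.mem_coe, Finset.mem_filter, hB, Finset.mem_filter] at hP
      obtain ⟨⟨h1, h2⟩, h3⟩ := hP
      rw [Fintype.mem_piFinset] at h1
      rw [Finset.mem_coe, Finset.mem_filter, Fintype.mem_piFinset]
      refine ⟨fun g => Fintype.mem_piFinset.2 (fun j => h1 _), ?_⟩
      have h4 : asm (fun g j => P (E (Sum.inl (g, j)))) y = P := by
        funext i
        obtain ⟨s, rfl⟩ := E.surjective i
        rcases s with ⟨g, j⟩ | l
        · exact hasm1 (fun g j => P (E (Sum.inl (g, j)))) y g j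
        · exact (hasm2 (fun g j => P (E (Sum.inl (g, j)))) y l).trans (congrFun h3 l).symm
      rw [h4]
      exact h2
    · intro P hP P' hP' hPP
      rw [Finset.mem_coe, Finset.mem_filter] at hP hP'
      funext i
      obtain ⟨s, rfl⟩ := E.surjective i
      rcases s with ⟨g, j⟩ | l
      · exact congrFun (congrFun hPP g) j
      · exact congrFun (hP.2.trans hP'.2.symm) l
  have hle2 : ∀ y ∈ YR, ((By y).card : ℝ) ≤ G * ρ ^ ((1 / 2 : ℝ) ^ G) * (XA.card : ℝ) ^ G := by
    intro y _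
    refine box XA ρ hρ0 hρ1 G r hr (By y) (Finset.filter_subset _ _) ?_
    intro u v hu hv huv hall
    set w : Fin G → ℂ := fun g => ∑ j, (((v g - u g) j : ℚ) : ℂ) * X (M * (g : ℕ) + (j : ℕ)) with hw
    obtain ⟨S, hS⟩ := hG W hW hWN (ζ + ∑ i, (asm u y i : ℂ) * X (i : ℕ)) w (by
      intro g halg
      apply huv g
      exact (mem_VA _ _).2 halg)
    have h1 := (Finset.mem_filter.1 (hall S)).2
    apply h1
    have h2 : ∑ i, (asm (fun g => if g ∈ S then v g else u g) y i : ℂ) * X (i : ℕ) =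
        ∑ i, (asm u y i : ℂ) * X (i : ℕ) + ∑ g ∈ S, w g := by
      rw [sum_idx hR, sum_idx hR]
      have h3 : ∀ x l, asm x y (idx G M R k hR (Sum.inr l)) = y l := fun x l => hasm2 x y l
      have h4 : ∀ x g j, asm x y (idx G M R k hR (Sum.inl (g, j))) = x g j :=
        fun x g j => hasm1 x y g j
      simp only [h3, h4]
      have h5 : ∀ g, ∑ j, (((if g ∈ S then v g else u g) j : ℚ) : ℂ) * X (M * (g : ℕ) + (j : ℕ)) =
          (∑ j, (u g j : ℂ) * X (M * (g : ℕ) + (j : ℕ))) + if g ∈ S then w g else 0 := by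
        intro g
        by_cases hg : g ∈ S
        · rw [if_pos hg, if_pos hg, hw]
          beta_reduce
          rw [← Finset.sum_add_distrib]
          refine Finset.sum_congr rfl fun j _ => ?_
          rw [Pi.sub_apply]
          push_cast
          ring
        · rw [if_neg hg, if_neg hg, add_zero]
      rw [Finset.sum_congr rfl (fun g _ => h5 g), Finset.sum_add_distrib, Finset.sum_ite_mem,
        Finset.univ_inter, add_right_comm]
    rw [h2, ← add_assoc]
    exact hS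
  have hYR : (YR.card : ℝ) = a ^ R := by
    rw [Fintype.card_piFinset_const]
    push_cast
    rfl
  have htot : (B.card : ℝ) ≤ a ^ R * (G * ρ ^ ((1 / 2 : ℝ) ^ G) * (XA.card : ℝ) ^ G) := by
    rw [hfib, ← hYR]
    push_cast
    rw [← nsmul_eq_mul, ← Finset.sum_const]
    refine Finset.sum_le_sum fun y hy => ?_
    exact (Nat.cast_le.2 (hle1 y hy)).trans (hle2 y hy)
  refine htot.trans ?_
  have ha0 : 0 < a := by linarith
  have h6 : a ^ R * (G * ρ ^ ((1 / 2 : ℝ) ^ G) * (XA.card : ℝ) ^ G) =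
      G * a ^ ((k : ℝ) - (c : ℝ) * (1 / 2 : ℝ) ^ G) := by
    rw [hXAc, Real.rpow_sub ha0, Real.rpow_mul ha0.le, hρ, Real.inv_rpow (by positivity),
      Real.rpow_natCast, Real.rpow_natCast, ← hR, pow_add, mul_comm G M, pow_mul]
    field_simp
  rw [h6]
  have h7 : δ * k ≤ (c : ℝ) * (1 / 2 : ℝ) ^ G := by
    have h8 : (k : ℝ) ≤ 4 * G * c := by
      have h9 : k ≤ 4 * G * c := by
        have h10 : M + 1 ≤ 4 * c := by omega
        calc k ≤ G * (M + 1) := hkM.le
          _ ≤ G * (4 * c) := Nat.mul_le_mul_left _ h10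
          _ = 4 * G * c := by ring
      exact_mod_cast h9
    rw [hδ, div_mul_eq_mul_div, div_le_iff₀ (by positivity)]
    have h11 : (0 : ℝ) ≤ (1 / 2 : ℝ) ^ G := by positivity
    nlinarith
  gcongr

end Pool.Agent.Y918.RP
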