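import Mathlib
import Pool.Agent.Y918.QC.Box
import Pool.Agent.Y918.QC.Cube
import Pool.Agent.Y918.RT.Main
import Pool.Agent.Y918.RP.StepX

set_option autoImplicit false

/-!
# One additive step: random combinations of linearly independent numbers
-/

namespace Pool.Agent.Y918.RP

open Module Finset
open Pool.Agent.H301R2.SSE (QB mem_QB)
open Pool.Agent.W245 (IndepOver)
open Pool.Agent.Y918.RT (VA mem_VA card_coset idx idx_inl pw)
open Pool.Agent.Y918.QC (boxk GridP cubeQ)

/-- The rational vectors `q` with `∑ q i * x i ∈ V`. -/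
noncomputable def LV {M : ℕ} (x : Fin M → ℂ) (V : Submodule QB ℂ) : Submodule ℚ (Fin M → ℚ) :=
  (V.restrictScalars ℚ).comap (Fintype.linearCombination ℚ x)

theorem mem_LV {M : ℕ} (x : Fin M → ℂ) (V : Submodule QB ℂ) (q : Fin M → ℚ) :
    q ∈ LV x V ↔ ∑ i, (q i : ℂ) * x i ∈ V := by
  unfold LV
  rw [Submodule.mem_comap, Fintype.linearCombination_apply, Submodule.restrictScalars_mem]
  simp only [Rat.smul_def]

/-- Rational independence of rational vectors gives independence over `ℚ̄`. -/
theorem LV_finrank {M : ℕ} {x : Fin M → ℂ} (hx : LinearIndependent QB x) (V : Submodule QB ℂ)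
    [Module.Finite QB V] : finrank ℚ (LV x V) ≤ finrank QB V := by
  classical
  set d := finrank ℚ (LV x V) with hd
  let b := Module.finBasis ℚ (LV x V)
  have hb : LinearIndependent ℚ (fun l => ((b l : LV x V) : Fin M → ℚ)) :=
    b.linearIndependent.map' (LV x V).subtype (Submodule.ker_subtype _)
  -- independence over QB of the vectors
  have hb' : LinearIndependent QB (fun l => fun j => (algebraMap ℚ QB (((b l : LV x V) : Fin M → ℚ) j))) := by
    have h1 := (linearIndependent_algebraMap_comp_iff (R := ℚ) (S := QB)).2 hb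
    exact h1
  let v : Fin d → V := fun l => ⟨∑ j, ((((b l : LV x V) : Fin M → ℚ) j : ℚ) : ℂ) * x j,
    (mem_LV x V _).1 (b l).2⟩
  have hv : LinearIndependent QB v := by
    have h2 : LinearIndependent QB (fun l => ((v l : V) : ℂ)) := by
      rw [Fintype.linearIndependent_iff]
      intro g hg
      apply Fintype.linearIndependent_iff.1 hb' g
      funext j
      rw [Finset.sum_apply, Pi.zero_apply]
      have h3 : ∑ j, (∑ l, g l * algebraMap ℚ QB (((b l : LV x V) : Fin M → ℚ) j)) • x j = 0 := by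
        rw [← hg]
        simp only [v, Finset.sum_smul, Finset.smul_sum]
        rw [Finset.sum_comm]
        refine Finset.sum_congr rfl fun l _ => Finset.sum_congr rfl fun j _ => ?_
        rw [mul_smul]
        congr 1
      have h4 := Fintype.linearIndependent_iff.1 hx _ h3 j
      rw [← h4]
      refine Finset.sum_congr rfl fun l _ => ?_
      rw [Pi.smul_apply, smul_eq_mul]
    exact LinearIndependent.of_comp V.subtype h2
  have h4 := hv.fintype_card_le_finrank
  rw [Fintype.card_fin] at h4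
  exact h4

section Dep

variable {F C : Type*} [Field F] [AddCommGroup C] [Module F C] {X : Type*}

open Classical in
/-- Dependent tuples are rare. -/
theorem dep_countF (A : Finset X) (f : X → C) (B : ℕ) (ρ : ℝ) (hρ : 0 ≤ ρ)
    (h : ∀ V : Submodule F C, Module.Finite F V → finrank F V < B →
      ((A.filter (fun x => f x ∈ V)).card : ℝ) ≤ ρ * A.card) :
    ∀ n ≤ B, (((Fintype.piFinset fun _ : Fin n => A).filter
      (fun v => ¬ LinearIndependent F (fun i => f (v i)))).card : ℝ) ≤
        n * ρ * (A.card : ℝ) ^ n := by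
  classical
  intro n
  induction n with
  | zero =>
    intro _
    rw [Finset.filter_false_of_mem]
    · simp
    · intro v _ hv
      exact hv linearIndependent_empty_type
  | succ n ih =>
    intro hn
    set a : ℝ := (A.card : ℝ) with ha
    have ha0 : 0 ≤ a := Nat.cast_nonneg _
    set Φ := (Fintype.piFinset fun _ : Fin (n + 1) => A).filter
      (fun v => ¬ LinearIndependent F (fun i => f (v i))) with hΦ
    set Y : Finset (Fin n → X) := Fintype.piFinset fun _ : Fin n => A with hY
    have hYc : (Y.card : ℝ) = a ^ n := by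
      rw [hY, Fintype.card_piFinset_const]
      push_cast
      rfl
    have hfib : Φ.card = ∑ t ∈ Y, (Φ.filter (fun v => Fin.tail v = t)).card := by
      apply Finset.card_eq_sum_card_fiberwise
      intro v hv
      rw [Finset.mem_coe, hΦ, Finset.mem_filter, Fintype.mem_piFinset] at hv
      rw [Finset.mem_coe, hY, Fintype.mem_piFinset]
      exact fun i => hv.1 i.succ
    have hinj : ∀ t, Set.InjOn (fun v : Fin (n + 1) → X => v 0)
        (Φ.filter (fun v => Fin.tail v = t) : Finset (Fin (n + 1) → X)) := by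
      intro t v hv v' hv' hvv
      rw [Finset.mem_coe, Finset.mem_filter] at hv hv'
      have h1 : v 0 = v' 0 := hvv
      rw [← Fin.cons_self_tail v, ← Fin.cons_self_tail v', hv.2, hv'.2, h1]
    have hall : ∀ t ∈ Y, ((Φ.filter (fun v => Fin.tail v = t)).card : ℝ) ≤
        (if ¬ LinearIndependent F (fun i => f (t i)) then a else 0) + ρ * a := by
      intro t _
      by_cases h0 : ¬ LinearIndependent F (fun i => f (t i))
      · rw [if_pos h0]
        have h1 : (Φ.filter (fun v => Fin.tail v = t)).card ≤ A.card := by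
          refine Finset.card_le_card_of_injOn (fun v => v 0) ?_ (hinj t)
          intro v hv
          rw [Finset.mem_coe, Finset.mem_filter, hΦ, Finset.mem_filter, Fintype.mem_piFinset] at hv
          exact hv.1.1 0
        have h2 : ((Φ.filter (fun v => Fin.tail v = t)).card : ℝ) ≤ a := by
          rw [ha]
          exact_mod_cast h1
        have h3 : 0 ≤ ρ * a := mul_nonneg hρ ha0
        linarith
      · rw [if_neg h0, zero_add]
        push Not at h0
        have hfin : Module.Finite F (Submodule.span F (Set.range fun i => f (t i))) :=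
          FiniteDimensional.span_of_finite F (Set.finite_range _)
        have hrk : finrank F (Submodule.span F (Set.range fun i => f (t i))) < B := by
          have h1 := finrank_range_le_card (R := F) (fun i => f (t i))
          rw [Fintype.card_fin] at h1
          have h2 : finrank F (Submodule.span F (Set.range fun i => f (t i))) ≤ n := h1
          omega
        refine le_trans (Nat.cast_le.2 ?_) (h _ hfin hrk)
        refine Finset.card_le_card_of_injOn (fun v => v 0) ?_ (hinj t)
        intro v hv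
        rw [Finset.mem_coe, Finset.mem_filter, hΦ, Finset.mem_filter, Fintype.mem_piFinset] at hv
        rw [Finset.mem_coe, Finset.mem_filter]
        refine ⟨hv.1.1 0, ?_⟩
        by_contra hcon
        apply hv.1.2
        have h1 : (fun i => f (v i)) =
            (Fin.cons (f (v 0)) (fun i => f (t i)) : Fin (n + 1) → C) := by
          funext i
          refine Fin.cases ?_ (fun i => ?_) i
          · rfl
          · rw [Fin.cons_succ, ← hv.2]
            rfl
        rw [h1, linearIndependent_finCons]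
        exact ⟨h0, hcon⟩
    have ih' := ih (by omega)
    rw [hfib]
    push_cast
    refine (Finset.sum_le_sum hall).trans ?_
    rw [Finset.sum_add_distrib, ← Finset.sum_filter, Finset.sum_const, Finset.sum_const,
      nsmul_eq_mul, nsmul_eq_mul, hYc]
    have h1 : (((Y.filter fun v => ¬ LinearIndependent F (fun i => f (v i))).card : ℕ) : ℝ) * a ≤
        (n * ρ * a ^ n) * a := mul_le_mul_of_nonneg_right ih' ha0
    calc _ ≤ (n * ρ * a ^ n) * a + a ^ n * (ρ * a) := by linarith
      _ = (n + 1) * ρ * a ^ (n + 1) := by ring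

open Classical in
/-- Degenerate grids directions are rare. -/
theorem deg_countF (A : Finset X) (f : X → C) (B : ℕ) (ρ : ℝ) (hρ : 0 ≤ ρ)
    (h : ∀ V : Submodule F C, Module.Finite F V → finrank F V < B → ∀ y : C,
      ((A.filter (fun x => f x - y ∈ V)).card : ℝ) ≤ ρ * A.card) :
    (((Fintype.piFinset fun _ : Fin (B + 1) => A).filter
      (fun x => ¬ LinearIndependent F (fun i : Fin B => f (x i.succ) - f (x 0)))).card : ℝ) ≤
        (B * ρ) * (A.card : ℝ) ^ (B + 1) := by
  classical
  set a : ℝ := (A.card : ℝ) with ha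
  set Φ := (Fintype.piFinset fun _ : Fin (B + 1) => A).filter
      (fun x => ¬ LinearIndependent F (fun i : Fin B => f (x i.succ) - f (x 0))) with hΦ
  have hfib : Φ.card = ∑ u ∈ A, (Φ.filter (fun x => x 0 = u)).card := by
    apply Finset.card_eq_sum_card_fiberwise
    intro x hx
    rw [Finset.mem_coe, hΦ, Finset.mem_filter, Fintype.mem_piFinset] at hx
    exact hx.1 0
  rw [hfib]
  push_cast
  have hall : ∀ u ∈ A, ((Φ.filter (fun x => x 0 = u)).card : ℝ) ≤ B * ρ * a ^ B := by
    intro u _
    have h1 := dep_countF A (fun x => f x - f u) B ρ hρ (fun V hV hV' => h V hV hV' (f u)) B le_rfl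
    refine le_trans (Nat.cast_le.2 ?_) h1
    refine Finset.card_le_card_of_injOn (fun x => Fin.tail x) ?_ ?_
    · intro x hx
      rw [Finset.mem_coe, Finset.mem_filter, hΦ, Finset.mem_filter, Fintype.mem_piFinset] at hx
      rw [Finset.mem_coe, Finset.mem_filter, Fintype.mem_piFinset]
      refine ⟨fun i => hx.1.1 i.succ, ?_⟩
      have h2 := hx.1.2
      rw [hx.2] at h2
      exact h2
    · intro x hx x' hx' hxx
      rw [Finset.mem_coe, Finset.mem_filter] at hx hx'
      have h2 : Fin.tail x = Fin.tail x' := hxx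
      rw [← Fin.cons_self_tail x, ← Fin.cons_self_tail x', hx.2, hx'.2, h2]
  refine (Finset.sum_le_sum hall).trans ?_
  rw [Finset.sum_const, nsmul_eq_mul]
  apply le_of_eq
  rw [← ha]
  ring

end Dep

open Classical in
/-- **One additive step.** -/
theorem stepA (N D : ℕ) : ∃ (k₀ C : ℕ) (δ : ℝ), 0 < δ ∧ δ ≤ 1 / 4 ∧ ∀ k ≥ k₀, ∀ A : Finset ℚ,
    A.Nonempty → ∀ W : Submodule QB ℂ, Module.Finite QB W → finrank QB W ≤ N →
    ∀ X : ℕ → ℂ, LinearIndependent QB (fun i : Fin k => X (i : ℕ)) → ∀ ζ : ℂ,
    (((Fintype.piFinset fun _ : Fin k => A).filter (fun P : Fin k → ℚ => ¬ IndepOver W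
      (pw D (ζ + ∑ i : Fin k, (P i : ℂ) * X (i : ℕ))))).card : ℝ) ≤
      C * (A.card : ℝ) ^ ((k : ℝ) - δ * k) := by
  have hacl : IsAlgClosed QB := (algebraicClosure.isAlgClosure ℚ ℂ).isAlgClosed
  obtain ⟨G₀, B₀, hGB⟩ := cubeQ QB QB ℂ D N
  obtain ⟨G, hG⟩ : ∃ G, G = G₀ + 1 := ⟨_, rfl⟩
  obtain ⟨B, hB⟩ : ∃ B, B = B₀ + 1 := ⟨_, rfl⟩
  have hG0 : 0 < G := by omega
  have hB0 : 0 < B := by omega
  have hGr : (1 : ℝ) ≤ G := by exact_mod_cast hG0
  have hBr : (1 : ℝ) ≤ B := by exact_mod_cast hB0
  obtain ⟨e, he⟩ : ∃ e : ℝ, e = (1 / (B + 1 : ℝ)) ^ G := ⟨_, rfl⟩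
  have he0 : 0 < e := by rw [he]; positivity
  have he1 : e ≤ 1 := by
    rw [he]
    apply pow_le_one₀ (by positivity)
    rw [div_le_one (by positivity)]
    linarith
  obtain ⟨δ, hδ⟩ : ∃ δ : ℝ, δ = e / (4 * G) := ⟨_, rfl⟩
  have hδ0 : 0 < δ := by rw [hδ]; positivity
  have hδ1 : δ ≤ 1 / 4 := by
    rw [hδ, div_le_iff₀ (by positivity)]
    nlinarith
  refine ⟨G * (2 * B + 1), G * B, δ, hδ0, hδ1, fun k hk A hA W hW hWN X hX ζ => ?_⟩
  obtain ⟨M, hM⟩ : ∃ M, M = k / G := ⟨_, rfl⟩
  have hGM : G * M ≤ k := by rw [hM]; exact Nat.mul_div_le k G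
  have hM2 : 2 * B + 1 ≤ M := by
    rw [hM, Nat.le_div_iff_mul_le hG0, mul_comm]
    exact hk
  have hkM : k < G * (M + 1) := by
    rw [hM]
    exact Nat.lt_mul_div_succ k hG0
  obtain ⟨R, hR⟩ : ∃ R, G * M + R = k := ⟨k - G * M, by omega⟩
  obtain ⟨a, ha⟩ : ∃ a : ℝ, a = (A.card : ℝ) := ⟨_, rfl⟩
  rw [← ha]
  have ha1 : 1 ≤ a := by
    rw [ha]
    exact_mod_cast hA.card_pos
  have ha0 : 0 < a := by linarith
  set bad : (Fin k → ℚ) → Prop := fun P => ¬ IndepOver W
      (pw D (ζ + ∑ i, (P i : ℂ) * X (i : ℕ))) with hbad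
  set Bd := (Fintype.piFinset fun _ : Fin k => A).filter (fun P => bad P) with hBd
  -- the case of one element
  rcases Nat.lt_or_ge A.card 2 with hA2 | hA2
  · have h1 : A.card = 1 := by
      have := hA.card_pos
      omega
    have h2 : a = 1 := by rw [ha, h1]; norm_num
    have h3 : Bd.card ≤ 1 := by
      refine (Finset.card_le_card (Finset.filter_subset _ _)).trans ?_
      rw [Fintype.card_piFinset_const, h1, one_pow]
    rw [h2, Real.one_rpow, mul_one]
    have h4 : 1 ≤ G * B := Nat.mul_pos hG0 hB0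
    exact_mod_cast h3.trans h4
  have ha2 : 2 ≤ a := by rw [ha]; exact_mod_cast hA2
  obtain ⟨ρ, hρ⟩ : ∃ ρ : ℝ, ρ = (a ^ (M - B))⁻¹ := ⟨_, rfl⟩
  have hac : 1 ≤ a ^ (M - B) := one_le_pow₀ ha1
  have hρ0 : 0 < ρ := by rw [hρ]; positivity
  obtain ⟨θ, hθ⟩ : ∃ θ : ℝ, θ = B * ρ := ⟨_, rfl⟩
  have hθ0 : 0 < θ := by rw [hθ]; positivity
  have hθ1 : θ ≤ 1 := by
    rw [hθ, hρ, ← div_eq_mul_inv, div_le_one (by positivity)]
    have h1 : (B : ℝ) ≤ 2 ^ B := by exact_mod_cast Nat.lt_two_pow_self.le
    calc (B : ℝ) ≤ 2 ^ B := h1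
      _ ≤ a ^ B := pow_le_pow_left₀ (by norm_num) ha2 _
      _ ≤ a ^ (M - B) := pow_le_pow_right₀ ha1 (by omega)
  set XA : Finset (Fin M → ℚ) := Fintype.piFinset fun _ => A with hXA
  have hXAc : (XA.card : ℝ) = a ^ M := by
    rw [hXA, Fintype.card_piFinset_const, ha]
    push_cast
    rfl
  let val : Fin G → (Fin M → ℚ) → ℂ := fun g u => ∑ j, (u j : ℂ) * X (M * (g : ℕ) + (j : ℕ))
  have hXg : ∀ g : Fin G, LinearIndependent QB (fun j : Fin M => X (M * (g : ℕ) + (j : ℕ))) := by
    intro g
    have h4 : (g : ℕ) + 1 ≤ G := g.2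
    have h5 := Nat.mul_le_mul_left M h4
    rw [Nat.mul_add, mul_one, mul_comm M G] at h5
    exact hX.comp (fun j : Fin M => (⟨M * (g : ℕ) + (j : ℕ), by omega⟩ : Fin k)) (fun i j h => by
      have := congrArg Fin.val h
      exact Fin.ext (Nat.add_left_cancel this))
  have hcount : ∀ (g : Fin G) (V : Submodule QB ℂ), Module.Finite QB V → finrank QB V < B →
      ∀ y : ℂ, ((XA.filter (fun u => val g u - y ∈ V)).card : ℝ) ≤ ρ * XA.card := by
    intro g V hV hVB y
    have h1 : (XA.filter (fun u => val g u - y ∈ V)).card ≤ A.card ^ finrank QB V := by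
      rcases (XA.filter (fun u => val g u - y ∈ V)).eq_empty_or_nonempty with h0 | ⟨u₀, hu₀⟩
      · rw [h0]
        simp
      have h2 := card_coset (LV (fun j : Fin M => X (M * (g : ℕ) + (j : ℕ))) V) A u₀
      refine le_trans (Finset.card_le_card ?_)
        (h2.trans (Nat.pow_le_pow_right hA.card_pos (LV_finrank (hXg g) V)))
      intro u hu
      rw [Finset.mem_filter] at hu hu₀ ⊢
      refine ⟨hu.1, ?_⟩
      rw [mem_LV]
      have h3 := V.sub_mem hu.2 hu₀.2
      have h4 : (val g u - y) - (val g u₀ - y) =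
          ∑ j, (((u - u₀) j : ℚ) : ℂ) * X (M * (g : ℕ) + (j : ℕ)) := by
        simp only [val]
        rw [sub_sub_sub_cancel_right, ← Finset.sum_sub_distrib]
        refine Finset.sum_congr rfl fun j _ => ?_
        rw [Pi.sub_apply]
        push_cast
        ring
      rw [h4] at h3
      exact h3
    have h2 : ((XA.filter (fun u => val g u - y ∈ V)).card : ℝ) ≤ a ^ finrank QB V := by
      rw [ha]
      exact_mod_cast h1
    refine h2.trans ?_
    rw [hXAc, hρ, inv_mul_eq_div, le_div_iff₀ (by positivity), ← pow_add]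
    exact pow_le_pow_right₀ ha1 (by omega)
  let E := idx G M R k hR
  let asm : (Fin G → Fin M → ℚ) → (Fin R → ℚ) → (Fin k → ℚ) := fun x y i =>
    Sum.elim (fun p : Fin G × Fin M => x p.1 p.2) y (E.symm i)
  have hasm1 : ∀ x y g j, asm x y (E (Sum.inl (g, j))) = x g j := by
    intro x y g j
    simp [asm]
  have hasm2 : ∀ x y l, asm x y (E (Sum.inr l)) = y l := by
    intro x y l
    simp [asm]
  let YR : Finset (Fin R → ℚ) := Fintype.piFinset fun _ => A
  let By : (Fin R → ℚ) → Finset (Fin G → Fin M → ℚ) := fun y =>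
    (Fintype.piFinset fun _ : Fin G => XA).filter (fun x => bad (asm x y))
  have hfib : Bd.card = ∑ y ∈ YR, (Bd.filter (fun P => (fun l => P (E (Sum.inr l))) = y)).card := by
    apply Finset.card_eq_sum_card_fiberwise
    intro P hP
    have h1 := Fintype.mem_piFinset.1 (Finset.mem_filter.1 hP).1
    exact Fintype.mem_piFinset.2 (fun l => h1 _)
  have hle1 : ∀ y ∈ YR, (Bd.filter (fun P => (fun l => P (E (Sum.inr l))) = y)).card ≤ (By y).card := by
    intro y _
    apply Finset.card_le_card_of_injOn (fun P g j => P (E (Sum.inl (g, j))))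
    · intro P hP
      rw [Finset.mem_coe, Finset.mem_filter, hBd, Finset.mem_filter] at hP
      obtain ⟨⟨h1, h2⟩, h3⟩ := hP
      rw [Fintype.mem_piFinset] at h1
      rw [Finset.mem_coe, Finset.mem_filter, Fintype.mem_piFinset]
      refine ⟨fun g => Fintype.mem_piFinset.2 (fun j => h1 _), ?_⟩
      have h4 : asm (fun g j => P (E (Sum.inl (g, j)))) y = P := by
        funext i
        obtain ⟨s, rfl⟩ := E.surjective i
        rcases s with ⟨g, j⟩ | l
        · exact hasm1 (fun g j => P (E (Sum.inl (g, j)))) y g j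
        · exact (hasm2 (fun g j => P (E (Sum.inl (g, j)))) y l).trans (congrFun h3 l).symm
      rw [h4]
      exact h2
    · intro P hP P' hP' hPP
      rw [Finset.mem_coe, Finset.mem_filter] at hP hP'
      funext i
      obtain ⟨s, rfl⟩ := E.surjective i
      rcases s with ⟨g, j⟩ | l
      · exact congrFun (congrFun hPP g) j
      · exact congrFun (hP.2.trans hP'.2.symm) l
  have hgrid : GridP D G B W :=
    (hGB W hW hWN).mono (by omega) (by omega)
  have hle2 : ∀ y ∈ YR, ((By y).card : ℝ) ≤ G * θ ^ e * (a ^ M) ^ G := by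
    intro y _
    have h0 := boxk B θ hθ0 hθ1 G (fun _ => XA)
      (fun g x => ¬ LinearIndependent QB (fun i : Fin B => val g (x i.succ) - val g (x 0)))
      (by
        intro g
        have h := deg_countF XA (val g) B ρ hρ0.le (fun V hV hV' y' => hcount g V hV hV' y')
        rw [← hθ] at h
        convert h) (By y) (Finset.filter_subset _ _) (by
        intro x hx hnd hall
        obtain ⟨η, hη⟩ := hgrid (ζ + ∑ i, (asm (fun g => x g 0) y i : ℂ) * X (i : ℕ))
          (fun g i => val g (x g i.succ) - val g (x g 0)) (fun g => not_not.1 (hnd g))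
        have h3 := (Finset.mem_filter.1 (hall (fun g => (η g).elim 0 Fin.succ))).2
        apply h3
        have h5 : ∀ x' : Fin G → Fin M → ℚ, ∑ i, (asm x' y i : ℂ) * X (i : ℕ) =
            ∑ g, val g (x' g) + ∑ l, (y l : ℂ) * X (E (Sum.inr l) : ℕ) := by
          intro x'
          rw [sum_idx hR]
          have h3 : ∀ x l, asm x y (idx G M R k hR (Sum.inr l)) = y l := fun x l => hasm2 x y l
          have h4 : ∀ x g j, asm x y (idx G M R k hR (Sum.inl (g, j))) = x g j :=
            fun x g j => hasm1 x y g j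
          simp only [h3, h4]
          rfl
        have h4 : ζ + ∑ i, (asm (fun g => x g ((η g).elim 0 Fin.succ)) y i : ℂ) * X (i : ℕ) =
            ζ + ∑ i, (asm (fun g => x g 0) y i : ℂ) * X (i : ℕ) +
              ∑ g, (η g).elim 0 (fun i => val g (x g i.succ) - val g (x g 0)) := by
          have e5 := h5 (fun g => x g ((η g).elim 0 Fin.succ))
          have e6 := h5 (fun g => x g 0)
          rw [e5, e6]
          have h6 : ∑ g, val g (x g ((η g).elim 0 Fin.succ)) = ∑ g, val g (x g 0) +
              ∑ g, (η g).elim 0 (fun i => val g (x g i.succ) - val g (x g 0)) := by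
            rw [← Finset.sum_add_distrib]
            refine Finset.sum_congr rfl fun g _ => ?_
            rcases η g with _ | i
            · simp
            · simp
          rw [h6]
          ring
        rw [h4]
        exact hη)
    have h1 : (∏ _g : Fin G, (XA.card : ℝ)) = (a ^ M) ^ G := by
      rw [hXAc, Finset.prod_const, Finset.card_univ, Fintype.card_fin]
    rw [h1, ← he] at h0
    exact h0
  have hYR : (YR.card : ℝ) = a ^ R := by
    rw [Fintype.card_piFinset_const, ha]
    push_cast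
    rfl
  have htot : (Bd.card : ℝ) ≤ a ^ R * (G * θ ^ e * (a ^ M) ^ G) := by
    rw [hfib, ← hYR]
    push_cast
    rw [← nsmul_eq_mul, ← Finset.sum_const]
    refine Finset.sum_le_sum fun y hy => ?_
    exact (Nat.cast_le.2 (hle1 y hy)).trans (hle2 y hy)
  refine htot.trans ?_
  have hθe : θ ^ e ≤ B * a ^ (-((M - B : ℕ) : ℝ) * e) := by
    rw [hθ, Real.mul_rpow (by positivity) hρ0.le]
    have h1 : (B : ℝ) ^ e ≤ B := by
      calc (B : ℝ) ^ e ≤ (B : ℝ) ^ (1 : ℝ) := Real.rpow_le_rpow_of_exponent_le hBr he1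
        _ = B := Real.rpow_one _
    have h2 : ρ ^ e = a ^ (-((M - B : ℕ) : ℝ) * e) := by
      rw [hρ, ← Real.rpow_natCast, ← Real.rpow_neg ha0.le, ← Real.rpow_mul ha0.le]
    rw [h2]
    exact mul_le_mul_of_nonneg_right h1 (Real.rpow_nonneg ha0.le _)
  have h6 : a ^ R * (G * (B * a ^ (-((M - B : ℕ) : ℝ) * e)) * (a ^ M) ^ G) =
      (G * B) * a ^ ((k : ℝ) - ((M - B : ℕ) : ℝ) * e) := by
    have e1 : a ^ ((k : ℝ) - ((M - B : ℕ) : ℝ) * e) =
        a ^ (k : ℝ) * a ^ (-((M - B : ℕ) : ℝ) * e) := by
      rw [← Real.rpow_add ha0]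
      congr 1
      ring
    rw [e1, Real.rpow_natCast, ← hR, pow_add, mul_comm G M, pow_mul]
    ring
  have h7 : δ * k ≤ ((M - B : ℕ) : ℝ) * e := by
    have h8 : (k : ℝ) ≤ 4 * G * ((M - B : ℕ) : ℝ) := by
      have h9 : k ≤ 4 * G * (M - B) := by
        have h10 : M + 1 ≤ 4 * (M - B) := by omega
        calc k ≤ G * (M + 1) := hkM.le
          _ ≤ G * (4 * (M - B)) := Nat.mul_le_mul_left _ h10
          _ = 4 * G * (M - B) := by ring
      exact_mod_cast h9
    rw [hδ, div_mul_eq_mul_div, div_le_iff₀ (by positivity)]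
    nlinarith
  calc a ^ R * (G * θ ^ e * (a ^ M) ^ G) ≤
      a ^ R * (G * (B * a ^ (-((M - B : ℕ) : ℝ) * e)) * (a ^ M) ^ G) := by gcongr
    _ = (G * B) * a ^ ((k : ℝ) - ((M - B : ℕ) : ℝ) * e) := h6
    _ ≤ (G * B) * a ^ ((k : ℝ) - δ * k) := by
        apply mul_le_mul_of_nonneg_left _ (by positivity)
        exact Real.rpow_le_rpow_of_exponent_le ha1 (by linarith)
    _ = _ := by push_cast; rfl

end Pool.Agent.Y918.RP
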