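import Mathlib
import Pool.Agent.W245.MixedTuples
import Pool.Agent.Y918.RT.Main
import Pool.Agent.Y918.RP.StepX
import Pool.Agent.Y918.RP.Add

set_option autoImplicit false

/-!
# Random processes with additive and multiplicative steps
-/

namespace Pool.Agent.Y918.RP

open Module Finset
open Pool.Agent.H301R2.SSE (QB mem_QB)
open Pool.Agent.W245 (IndepOver IndepT famExt famExt_finite)
open Pool.Agent.Y918.RT (VA mem_VA card_coset pw)

/-- The admissible functions of one step. -/
def Fine (k : ℕ) (f : (Fin k → ℚ) → ℂ) : Prop :=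
  (∃ (ζ : ℂ) (X : ℕ → ℂ), Half X k ∧
    ∀ p, f p = Complex.exp (ζ + ∑ i : Fin k, (p i : ℂ) * X (i : ℕ))) ∨
  (∃ (ζ : ℂ) (X : ℕ → ℂ), LinearIndependent QB (fun i : Fin k => X (i : ℕ)) ∧
    ∀ p, f p = ζ + ∑ i : Fin k, (p i : ℂ) * X (i : ℕ))

open Classical in
/-- **One step.** -/
theorem stepF (N D : ℕ) : ∃ (k₀ C : ℕ) (δ : ℝ), 0 < δ ∧ δ ≤ 1 / 4 ∧ ∀ k ≥ k₀, ∀ A : Finset ℚ,
    A.Nonempty → ∀ W : Submodule QB ℂ, Module.Finite QB W → finrank QB W ≤ N →
    ∀ f : (Fin k → ℚ) → ℂ, Fine k f →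
    (((Fintype.piFinset fun _ : Fin k => A).filter (fun p : Fin k → ℚ =>
      IsAlgebraic ℚ (f p) ∨ ¬ IndepOver W (pw D (f p)))).card : ℝ) ≤
      C * (A.card : ℝ) ^ ((k : ℝ) - δ * k) := by
  obtain ⟨k₁, C₁, δ₁, hδ₁, hδ₁', h₁⟩ := stepX N D
  obtain ⟨k₂, C₂, δ₂, hδ₂, hδ₂', h₂⟩ := stepA N D
  refine ⟨k₁ + k₂ + 6, 1 + C₁ + C₂, min δ₁ δ₂, lt_min hδ₁ hδ₂, (min_le_left _ _).trans hδ₁',
    fun k hk A hA W hW hWN f hf => ?_⟩
  set δ := min δ₁ δ₂ with hδ
  have hδ0 : 0 < δ := lt_min hδ₁ hδ₂
  have hδ1 : δ ≤ 1 / 4 := (min_le_left _ _).trans hδ₁'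
  obtain ⟨a, ha⟩ : ∃ a : ℝ, a = (A.card : ℝ) := ⟨_, rfl⟩
  rw [← ha]
  have ha1 : 1 ≤ a := by
    rw [ha]
    exact_mod_cast hA.card_pos
  have ha0 : 0 < a := by linarith
  have hk6 : (6 : ℝ) ≤ k := by
    have : 6 ≤ k := by omega
    exact_mod_cast this
  set XA : Finset (Fin k → ℚ) := Fintype.piFinset fun _ => A with hXA
  set H1 := XA.filter (fun p => IsAlgebraic ℚ (f p)) with hH1
  set H2 := XA.filter (fun p => ¬ IndepOver W (pw D (f p))) with hH2
  have hun : (XA.filter (fun p => IsAlgebraic ℚ (f p) ∨ ¬ IndepOver W (pw D (f p)))) = H1 ∪ H2 := by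
    rw [hH1, hH2, ← Finset.filter_or]
  have hcard : (((H1 ∪ H2).card : ℕ) : ℝ) ≤ (H1.card : ℝ) + H2.card := by
    exact_mod_cast Finset.card_union_le H1 H2
  have hq : 0 ≤ a ^ ((k : ℝ) - δ * k) := Real.rpow_nonneg ha0.le _
  have hC1 : (0 : ℝ) ≤ C₁ := Nat.cast_nonneg _
  have hC2 : (0 : ℝ) ≤ C₂ := Nat.cast_nonneg _
  have key : (H1.card : ℝ) ≤ a ^ ((k : ℝ) - δ * k) ∧
      (H2.card : ℝ) ≤ (C₁ + C₂) * a ^ ((k : ℝ) - δ * k) := by
    rcases hf with ⟨ζ, X, hX, hfX⟩ | ⟨ζ, X, hX, hfX⟩
    · constructor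
      · have h3 : H1.card ≤ A.card ^ finrank ℚ (VA (fun i : Fin k => X (0 + (i : ℕ)))) := by
          rcases H1.eq_empty_or_nonempty with h0 | ⟨p₀, hp₀⟩
          · rw [h0]
            simp
          refine (Finset.card_le_card ?_).trans
            (card_coset (VA (fun i : Fin k => X (0 + (i : ℕ)))) A p₀)
          intro p hp
          rw [hH1, Finset.mem_filter] at hp hp₀
          rw [Finset.mem_filter, mem_VA]
          refine ⟨hp.1, ?_⟩
          have h4 : ∑ i : Fin k, (((p - p₀) i : ℚ) : ℂ) * X (0 + (i : ℕ)) =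
              (ζ + ∑ i : Fin k, (p i : ℂ) * X (i : ℕ)) -
              (ζ + ∑ i : Fin k, (p₀ i : ℂ) * X (i : ℕ)) := by
            rw [add_sub_add_left_eq_sub, ← Finset.sum_sub_distrib]
            refine Finset.sum_congr rfl fun i _ => ?_
            rw [Pi.sub_apply, zero_add]
            push_cast
            ring
          have h5 := hp.2
          have h6 := hp₀.2
          rw [hfX] at h5 h6
          rw [h4, Complex.exp_sub, div_eq_mul_inv]
          exact h5.mul h6.inv
        have h4 := hX 0 k (by omega)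
        have h5 : (H1.card : ℝ) ≤ a ^ (finrank ℚ (VA (fun i : Fin k => X (0 + (i : ℕ)))) : ℝ) := by
          rw [Real.rpow_natCast, ha]
          exact_mod_cast h3
        refine h5.trans (Real.rpow_le_rpow_of_exponent_le ha1 ?_)
        have h6 : (2 : ℝ) * (finrank ℚ (VA (fun i : Fin k => X (0 + (i : ℕ)))) : ℝ) ≤ k + 3 := by
          exact_mod_cast h4
        nlinarith
      · have h3 := h₁ k (by omega) A hA W hW hWN X hX ζ
        rw [← ha] at h3
        have h4 : H2 = XA.filter (fun P : Fin k → ℚ => ¬ IndepOver W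
            (fun e : Fin (D + 1) => Complex.exp (ζ + ∑ i : Fin k, (P i : ℂ) * X (i : ℕ)) ^
              (e : ℕ))) := by
          rw [hH2]
          apply Finset.filter_congr
          intro p _
          rw [hfX]
          rfl
        have h5 : (H2.card : ℝ) ≤ C₁ * a ^ ((k : ℝ) - δ₁ * k) := by
          rw [h4]
          exact h3
        have h6 : a ^ ((k : ℝ) - δ₁ * k) ≤ a ^ ((k : ℝ) - δ * k) := by
          apply Real.rpow_le_rpow_of_exponent_le ha1
          have : δ ≤ δ₁ := min_le_left _ _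
          nlinarith
        nlinarith
    · constructor
      · have hV : Module.Finite QB (Submodule.span QB {(1 : ℂ)}) :=
          FiniteDimensional.span_of_finite QB (Set.finite_singleton _)
        have hfr : finrank QB (Submodule.span QB {(1 : ℂ)}) ≤ 1 := by
          have := finrank_span_le_card (R := QB) ({(1 : ℂ)} : Set ℂ)
          simpa using this
        have halg : ∀ z : ℂ, IsAlgebraic ℚ z → z ∈ Submodule.span QB {(1 : ℂ)} := by
          intro z hz
          rw [Submodule.mem_span_singleton]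
          exact ⟨⟨z, mem_QB.2 hz⟩, by rw [Algebra.smul_def, mul_one]; rfl⟩
        have h3 : H1.card ≤ A.card ^ finrank ℚ (LV (fun i : Fin k => X (i : ℕ))
            (Submodule.span QB {(1 : ℂ)})) := by
          rcases H1.eq_empty_or_nonempty with h0 | ⟨p₀, hp₀⟩
          · rw [h0]
            simp
          refine (Finset.card_le_card ?_).trans
            (card_coset (LV (fun i : Fin k => X (i : ℕ)) (Submodule.span QB {(1 : ℂ)})) A p₀)
          intro p hp
          rw [hH1, Finset.mem_filter] at hp hp₀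
          rw [Finset.mem_filter, mem_LV]
          refine ⟨hp.1, ?_⟩
          have h4 : ∑ i : Fin k, (((p - p₀) i : ℚ) : ℂ) * X (i : ℕ) = f p - f p₀ := by
            rw [hfX, hfX, add_sub_add_left_eq_sub, ← Finset.sum_sub_distrib]
            refine Finset.sum_congr rfl fun i _ => ?_
            rw [Pi.sub_apply]
            push_cast
            ring
          rw [h4]
          exact halg _ (hp.2.sub hp₀.2)
        have h4 := (LV_finrank hX (Submodule.span QB {(1 : ℂ)})).trans hfr
        have h5 : (H1.card : ℝ) ≤ a ^ (1 : ℝ) := by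
          have h6 : H1.card ≤ A.card ^ 1 := h3.trans (Nat.pow_le_pow_right hA.card_pos h4)
          rw [Real.rpow_one, ha]
          exact_mod_cast h6.trans_eq (pow_one _)
        refine h5.trans (Real.rpow_le_rpow_of_exponent_le ha1 ?_)
        nlinarith
      · have h3 := h₂ k (by omega) A hA W hW hWN X hX ζ
        rw [← ha] at h3
        have h4 : H2 = XA.filter (fun P : Fin k → ℚ => ¬ IndepOver W
            (pw D (ζ + ∑ i : Fin k, (P i : ℂ) * X (i : ℕ)))) := by
          rw [hH2]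
          apply Finset.filter_congr
          intro p _
          rw [hfX]
        have h5 : (H2.card : ℝ) ≤ C₂ * a ^ ((k : ℝ) - δ₂ * k) := by
          rw [h4]
          exact h3
        have h6 : a ^ ((k : ℝ) - δ₂ * k) ≤ a ^ ((k : ℝ) - δ * k) := by
          apply Real.rpow_le_rpow_of_exponent_le ha1
          have : δ ≤ δ₂ := min_le_right _ _
          nlinarith
        nlinarith
  obtain ⟨k1, k2⟩ := key
  rw [hun]
  push_cast
  nlinarith

variable {S : Type}

/-- The values of a process with `k` parameters for every step. -/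
noncomputable def valsF (k : ℕ) : (n : ℕ) → (Fin n → S → (Fin k → ℚ) → ℂ) →
    (Fin n → S → ℂ → S) → S → (Fin n → Fin k → ℚ) → Fin n → ℂ
  | 0, _, _, _, _ => Fin.elim0
  | n + 1, f, nx, s, P =>
      Fin.cons (f 0 s (P 0))
        (valsF k n (fun j => f j.succ) (fun j => nx j.succ) (nx 0 s (f 0 s (P 0))) (Fin.tail P))

/-- Admissible processes. -/
def AdmF (k : ℕ) : (n : ℕ) → (Fin n → S → (Fin k → ℚ) → ℂ) → (Fin n → S → ℂ → S) → S → Prop
  | 0, _, _, _ => True
  | n + 1, f, nx, s => Fine k (f 0 s) ∧ ∀ v, Transcendental ℚ v →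
      AdmF k n (fun j => f j.succ) (fun j => nx j.succ) (nx 0 s v)

open Classical in
/-- **Random processes.** -/
theorem processF (D n : ℕ) : ∀ N : ℕ, ∃ (k₀ C : ℕ) (δ : ℝ), 0 < δ ∧ δ ≤ 1 / 4 ∧ ∀ k ≥ k₀,
    ∀ A : Finset ℚ, A.Nonempty → ∀ W : Submodule QB ℂ, Module.Finite QB W → finrank QB W ≤ N →
    ∀ (S : Type) (f : Fin n → S → (Fin k → ℚ) → ℂ) (nx : Fin n → S → ℂ → S) (s : S),
    AdmF k n f nx s →
    (((Fintype.piFinset fun _ : Fin n => Fintype.piFinset fun _ : Fin k => A).filter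
      (fun P : Fin n → Fin k → ℚ =>
        ¬ IndepT W (fun j => pw D (valsF k n f nx s P j)))).card : ℝ) ≤
      C * (A.card : ℝ) ^ ((n * k : ℝ) - δ * k) := by
  induction n with
  | zero =>
    intro N
    refine ⟨0, 0, 1 / 4, by norm_num, le_rfl, fun k _ A _ W _ _ S f nx s _ => ?_⟩
    rw [Finset.filter_false_of_mem]
    · simp
    · rintro P _ hT
      exact hT (IndepT.zero _ _)
  | succ n ih =>
    intro N
    obtain ⟨k₁, C₁, δ₁, hδ₁, hδ₁', h₁⟩ := stepF N D
    obtain ⟨k₂, C₂, δ₂, hδ₂, hδ₂', h₂⟩ := ih (N * Fintype.card (Fin (D + 1)))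
    refine ⟨k₁ + k₂ + 6, 1 + C₁ + C₂, min δ₁ δ₂, lt_min hδ₁ hδ₂, (min_le_left _ _).trans hδ₁',
      fun k hk A hA W hW hWN S f nx s hadm => ?_⟩
    obtain ⟨hX, hadm'⟩ := hadm
    set δ := min δ₁ δ₂ with hδ
    set a : ℝ := (A.card : ℝ) with ha
    have ha1 : 1 ≤ a := by
      rw [ha]
      exact_mod_cast hA.card_pos
    have ha0 : 0 < a := by linarith
    set XA : Finset (Fin k → ℚ) := Fintype.piFinset fun _ => A with hXA
    have hXAc : (XA.card : ℝ) = a ^ (k : ℝ) := by
      rw [hXA, Fintype.card_piFinset_const, Real.rpow_natCast]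
      push_cast
      rfl
    set Yn : Finset (Fin n → Fin k → ℚ) := Fintype.piFinset fun _ => XA with hYn
    have hYc : (Yn.card : ℝ) = a ^ (n * k : ℝ) := by
      rw [hYn, Fintype.card_piFinset_const]
      push_cast
      rw [hXAc, ← Real.rpow_natCast, ← Real.rpow_mul ha0.le, mul_comm]
    let ev : (Fin k → ℚ) → ℂ := f 0 s
    set H : Finset (Fin k → ℚ) := XA.filter (fun p => IsAlgebraic ℚ (ev p) ∨
      ¬ IndepOver W (pw D (ev p))) with hH
    set B := ((Fintype.piFinset fun _ : Fin (n + 1) => XA).filter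
      (fun P : Fin (n + 1) → Fin k → ℚ =>
        ¬ IndepT W (fun j => pw D (valsF k (n + 1) f nx s P j)))) with hB
    have hHc : (H.card : ℝ) ≤ C₁ * a ^ ((k : ℝ) - δ * k) := by
      refine (h₁ k (by omega) A hA W hW hWN (f 0 s) hX).trans ?_
      have : δ ≤ δ₁ := min_le_left _ _
      gcongr
    have hfib : B.card = ∑ p ∈ XA, (B.filter (fun P => P 0 = p)).card := by
      apply Finset.card_eq_sum_card_fiberwise
      intro P hP
      exact Fintype.mem_piFinset.1 (Finset.mem_filter.1 hP).1 0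
    have hinj : ∀ p, Set.InjOn (fun P : Fin (n + 1) → Fin k → ℚ => Fin.tail P)
        (B.filter (fun P => P 0 = p)) := by
      intro p P hP P' hP' hPP
      rw [Finset.mem_coe, Finset.mem_filter] at hP hP'
      rw [← Fin.cons_self_tail P, ← Fin.cons_self_tail P', hP.2, hP'.2]
      exact congrArg _ hPP
    have hall : ∀ p ∈ XA, ((B.filter (fun P => P 0 = p)).card : ℝ) ≤ a ^ (n * k : ℝ) := by
      intro p _
      rw [← hYc]
      apply Nat.cast_le.2
      refine Finset.card_le_card_of_injOn (fun P => Fin.tail P) ?_ (hinj p)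
      intro P hP
      rw [Finset.mem_coe, Finset.mem_filter, hB, Finset.mem_filter] at hP
      have h3 := Fintype.mem_piFinset.1 hP.1.1
      exact Fintype.mem_piFinset.2 (fun j => h3 j.succ)
    have hgood : ∀ p ∈ XA, p ∉ H → ((B.filter (fun P => P 0 = p)).card : ℝ) ≤
        C₂ * a ^ ((n * k : ℝ) - δ * k) := by
      intro p hp hpH
      have hp1 : Transcendental ℚ (ev p) := fun h => hpH (Finset.mem_filter.2 ⟨hp, Or.inl h⟩)
      have hp2 : IndepOver W (pw D (ev p)) := by
        by_contra h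
        exact hpH (Finset.mem_filter.2 ⟨hp, Or.inr h⟩)
      obtain ⟨hfin, hrk⟩ := famExt_finite W N hWN (pw D (ev p))
      have h3 := h₂ k (by omega) A hA _ hfin hrk S (fun j => f j.succ)
        (fun j => nx j.succ) (nx 0 s (ev p)) (hadm' (ev p) hp1)
      have h4 : a ^ ((n * k : ℝ) - δ₂ * k) ≤ a ^ ((n * k : ℝ) - δ * k) := by
        have : δ ≤ δ₂ := min_le_right _ _
        gcongr
      refine le_trans (Nat.cast_le.2 ?_) (h3.trans ?_)
      · refine Finset.card_le_card_of_injOn (fun P => Fin.tail P) ?_ (hinj p)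
        intro P hP
        rw [Finset.mem_coe, Finset.mem_filter, hB, Finset.mem_filter] at hP
        obtain ⟨⟨hPA, hTi⟩, hP0⟩ := hP
        have h6 := Fintype.mem_piFinset.1 hPA
        rw [Finset.mem_coe, Finset.mem_filter]
        refine ⟨Fintype.mem_piFinset.2 (fun j => h6 j.succ), ?_⟩
        intro h7
        apply hTi
        have h8 := IndepT.cons hp2 h7
        have h9 : (fun j => pw D (valsF k (n + 1) f nx s P j)) =
            (Fin.cons (pw D (ev p)) (fun j => pw D (valsF k n (fun j => f j.succ)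
              (fun j => nx j.succ) (nx 0 s (ev p)) (Fin.tail P) j)) :
              Fin (n + 1) → Fin (D + 1) → ℂ) := by
          funext j
          refine Fin.cases ?_ (fun j => ?_) j
          · rw [Fin.cons_zero, ← hP0]
            rfl
          · rw [Fin.cons_succ, ← hP0]
            rfl
        rw [h9]
        exact h8
      · gcongr
    have htot : (B.card : ℝ) ≤ (H.card : ℝ) * a ^ (n * k : ℝ) +
        a ^ (k : ℝ) * (C₂ * a ^ ((n * k : ℝ) - δ * k)) := by
      rw [hfib]
      push_cast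
      rw [← Finset.sum_filter_add_sum_filter_not XA (fun p => p ∈ H)]
      apply add_le_add
      · refine (Finset.sum_le_sum (fun p hp => hall p (Finset.mem_filter.1 hp).1)).trans ?_
        rw [Finset.sum_const, nsmul_eq_mul]
        have h3 : ((XA.filter (fun p => p ∈ H)).card : ℝ) ≤ (H.card : ℝ) := by
          have h4 : (XA.filter (fun p => p ∈ H)).card ≤ H.card := by
            refine Finset.card_le_card ?_
            intro p hp
            exact (Finset.mem_filter.1 hp).2
          exact_mod_cast h4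
        gcongr
      · refine (Finset.sum_le_sum (fun p hp => hgood p (Finset.mem_filter.1 hp).1
          (Finset.mem_filter.1 hp).2)).trans ?_
        rw [Finset.sum_const, nsmul_eq_mul, ← hXAc]
        have h3 : ((XA.filter (fun p => ¬ p ∈ H)).card : ℝ) ≤ XA.card := by
          exact_mod_cast Finset.card_le_card (Finset.filter_subset _ _)
        gcongr
    refine htot.trans ?_
    have h3 : (H.card : ℝ) * a ^ (n * k : ℝ) ≤
        ((1 + C₁) * a ^ ((k : ℝ) - δ * k)) * a ^ (n * k : ℝ) := by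
      have : (H.card : ℝ) ≤ (1 + C₁) * a ^ ((k : ℝ) - δ * k) := by
        have : 0 ≤ a ^ ((k : ℝ) - δ * k) := Real.rpow_nonneg ha0.le _
        linarith
      gcongr
    have h4 : ((1 + C₁) * a ^ ((k : ℝ) - δ * k)) * a ^ (n * k : ℝ) +
        a ^ (k : ℝ) * (C₂ * a ^ ((n * k : ℝ) - δ * k)) =
        (1 + C₁ + C₂) * a ^ (((n : ℝ) + 1) * k - δ * k) := by
      have e1 : a ^ ((k : ℝ) - δ * k) * a ^ (n * k : ℝ) = a ^ (((n : ℝ) + 1) * k - δ * k) := by
        rw [← Real.rpow_add ha0]
        congr 1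
        ring
      have e2 : a ^ (k : ℝ) * a ^ ((n * k : ℝ) - δ * k) = a ^ (((n : ℝ) + 1) * k - δ * k) := by
        rw [← Real.rpow_add ha0]
        congr 1
        ring
      calc _ = (1 + (C₁ : ℝ)) * (a ^ ((k : ℝ) - δ * k) * a ^ (n * k : ℝ)) +
            C₂ * (a ^ (k : ℝ) * a ^ ((n * k : ℝ) - δ * k)) := by ring
        _ = _ := by rw [e1, e2]; ring
    push_cast
    linarith

end Pool.Agent.Y918.RP
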