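import Mathlib
import Pool.Agent.W245.MixedTuples
import Pool.Agent.Y918.QC.Tup
import Pool.Agent.Y918.RP.Vx
import Pool.Agent.Y918.RP.ProcF

set_option autoImplicit false

/-!
# Random tuples and random towers
-/

namespace Pool.Agent.Y918.RP

open Module Finset
open Pool.Agent.H301R2.SSE (QB mem_QB)
open Pool.Agent.W245 (IndepOver IndepT famExt famExt_finite)
open Pool.Agent.Y918.RT (VA mem_VA card_coset pw)

/-- The numbers `T_i` satisfy a nonzero polynomial relation with coefficients in `W` and of degree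
at most `D` in each of them. -/
def RelW (W : Submodule QB ℂ) (D : ℕ) {m : ℕ} (T : Fin m → ℂ) : Prop :=
  ∃ p : MvPolynomial (Fin m) ℂ, p ≠ 0 ∧ (∀ M, p.coeff M ∈ W) ∧ (∀ i, p.degreeOf i ≤ D) ∧
    MvPolynomial.eval T p = 0

theorem poly_of_indepTW {m D : ℕ} (W : Submodule QB ℂ) (T : Fin m → ℂ)
    (h : IndepT W (fun j => pw D (T j)))
    (p : MvPolynomial (Fin m) ℂ) (hW : ∀ M, p.coeff M ∈ W) (hdeg : ∀ i, p.degreeOf i ≤ D)
    (h0 : MvPolynomial.eval T p = 0) : p = 0 := by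
  classical
  have hsupp : p.support ⊆ (univ : Finset (Fin m → Fin (D + 1))).image
      Pool.Agent.Y918.QC.expoQ := by
    intro M hM
    rw [Finset.mem_image]
    refine ⟨fun i => ⟨M i,
      Nat.lt_succ_of_le ((MvPolynomial.degreeOf_le_iff.1 (hdeg i)) M hM)⟩,
      Finset.mem_univ _, ?_⟩
    ext v
    rfl
  have h1 : ∑ s : Fin m → Fin (D + 1), p.coeff (Pool.Agent.Y918.QC.expoQ s) *
      ∏ i, pw D (T i) (s i) = 0 := by
    rw [← h0, MvPolynomial.eval_eq']
    rw [Finset.sum_subset hsupp (by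
      intro M _ hM
      rw [MvPolynomial.notMem_support_iff.1 hM, zero_mul])]
    rw [Finset.sum_image (fun a _ b _ h => Pool.Agent.Y918.QC.expoQ_injective h)]
    rfl
  have h2 := h (fun s => p.coeff (Pool.Agent.Y918.QC.expoQ s)) (fun s => hW _) h1
  ext M
  rw [MvPolynomial.coeff_zero]
  by_cases hM : M ∈ p.support
  · obtain ⟨s, _, rfl⟩ := Finset.mem_image.1 (hsupp hM)
    exact h2 s
  · exact MvPolynomial.notMem_support_iff.1 hM

theorem not_relW {m D : ℕ} {W : Submodule QB ℂ} {T : Fin m → ℂ}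
    (h : IndepT W (fun j => pw D (T j))) : ¬ RelW W D T := by
  rintro ⟨p, hp, hW, hdeg, h0⟩
  exact hp (poly_of_indepTW W T h p hW hdeg h0)

theorem valsF_const {k : ℕ} : ∀ {n : ℕ} (g : Fin n → (Fin k → ℚ) → ℂ) (P : Fin n → Fin k → ℚ)
    (j : Fin n), valsF k n (fun j (_ : Unit) p => g j p) (fun _ _ _ => ()) () P j = g j (P j) := by
  intro n
  induction n with
  | zero => intro g P j; exact j.elim0
  | succ n ih =>
    intro g P j
    refine Fin.cases ?_ (fun j => ?_) j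
    · rfl
    · have h1 := ih (fun j => g j.succ) (Fin.tail P) j
      exact h1

theorem AdmF_const {k : ℕ} : ∀ {n : ℕ} (g : Fin n → (Fin k → ℚ) → ℂ), (∀ j, Fine k (g j)) →
    AdmF k n (fun j (_ : Unit) p => g j p) (fun _ _ _ => ()) () := by
  intro n
  induction n with
  | zero => intro g _; trivial
  | succ n ih =>
    intro g hg
    exact ⟨hg 0, fun v _ => ih (fun j => g j.succ) (fun j => hg j.succ)⟩

open Classical in
/-- **Random tuples.** -/
theorem tuplesI (D n N : ℕ) : ∃ (k₀ C : ℕ) (δ : ℝ), 0 < δ ∧ δ ≤ 1 / 4 ∧ ∀ k ≥ k₀,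
    ∀ A : Finset ℚ, A.Nonempty → ∀ W : Submodule QB ℂ, Module.Finite QB W → finrank QB W ≤ N →
    ∀ g : Fin n → (Fin k → ℚ) → ℂ, (∀ j, Fine k (g j)) →
    (((Fintype.piFinset fun _ : Fin n => Fintype.piFinset fun _ : Fin k => A).filter
      (fun P : Fin n → Fin k → ℚ => ¬ IndepT W (fun j => pw D (g j (P j))))).card : ℝ) ≤
      C * (A.card : ℝ) ^ ((n * k : ℝ) - δ * k) := by
  obtain ⟨k₀, C, δ, hδ, hδ', h⟩ := processF D n N
  refine ⟨k₀, C, δ, hδ, hδ', fun k hk A hA W hW hWN g hg => ?_⟩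
  refine le_trans ?_ (h k hk A hA W hW hWN Unit (fun j (_ : Unit) p => g j p)
    (fun _ _ _ => ()) () (AdmF_const g hg))
  apply Nat.cast_le.2
  apply Finset.card_le_card
  intro P hP
  rw [Finset.mem_filter] at hP ⊢
  refine ⟨hP.1, fun hI => hP.2 ?_⟩
  convert hI using 2 with j
  exact congrArg (pw D) (valsF_const g P j).symm

open Classical in
/-- **Random tuples.** -/
theorem tuplesF (D n N : ℕ) : ∃ (k₀ C : ℕ) (δ : ℝ), 0 < δ ∧ δ ≤ 1 / 4 ∧ ∀ k ≥ k₀,
    ∀ A : Finset ℚ, A.Nonempty → ∀ W : Submodule QB ℂ, Module.Finite QB W → finrank QB W ≤ N →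
    ∀ g : Fin n → (Fin k → ℚ) → ℂ, (∀ j, Fine k (g j)) →
    (((Fintype.piFinset fun _ : Fin n => Fintype.piFinset fun _ : Fin k => A).filter
      (fun P : Fin n → Fin k → ℚ => RelW W D (fun j => g j (P j)))).card : ℝ) ≤
      C * (A.card : ℝ) ^ ((n * k : ℝ) - δ * k) := by
  obtain ⟨k₀, C, δ, hδ, hδ', h⟩ := tuplesI D n N
  refine ⟨k₀, C, δ, hδ, hδ', fun k hk A hA W hW hWN g hg => ?_⟩
  refine le_trans ?_ (h k hk A hA W hW hWN g hg)
  apply Nat.cast_le.2
  apply Finset.card_le_card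
  intro P hP
  rw [Finset.mem_filter] at hP ⊢
  exact ⟨hP.1, fun hI => not_relW (T := fun j => g j (P j)) hI hP.2⟩

/-- The values up to the index `m`. -/
def upTo (T : ℕ → ℂ) (m : ℕ) : ℕ → ℂ := fun i => if i ≤ m then T i else 0

theorem upTo_update (T : ℕ → ℂ) (m : ℕ) :
    Function.update (upTo T m) (m + 1) (T (m + 1)) = upTo T (m + 1) := by
  funext i
  by_cases hi : i = m + 1
  · subst hi
    rw [Function.update_self]
    simp [upTo]
  · rw [Function.update_of_ne hi]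
    unfold upTo
    by_cases h : i ≤ m
    · rw [if_pos h, if_pos (by omega)]
    · rw [if_neg h, if_neg (by omega)]

/-- The transition of a tower. -/
def nxt (m : ℕ) {n : ℕ} (j : Fin n) (s : ℕ → ℂ) (v : ℂ) : ℕ → ℂ :=
  Function.update s (m + (j : ℕ) + 1) v

theorem nxt_succ (m : ℕ) {n : ℕ} :
    (fun j : Fin n => nxt m j.succ) = (fun j : Fin n => nxt (m + 1) j) := by
  funext j s v
  unfold nxt
  rw [Fin.val_succ]
  congr 1
  omega

theorem valsF_tower {k : ℕ} (T : ℕ → ℂ) : ∀ {n : ℕ} (m : ℕ)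
    (F : Fin n → (ℕ → ℂ) → (Fin k → ℚ) → ℂ) (P : Fin n → Fin k → ℚ),
    (∀ j : Fin n, T (m + (j : ℕ) + 1) = F j (upTo T (m + j)) (P j)) →
    ∀ j : Fin n, valsF k n F (nxt m) (upTo T m) P j = T (m + (j : ℕ) + 1) := by
  intro n
  induction n with
  | zero => intro m F P _ j; exact j.elim0
  | succ n ih =>
    intro m F P hT j
    refine Fin.cases ?_ (fun j => ?_) j
    · have h1 := hT 0
      rw [Fin.val_zero, add_zero] at h1
      rw [Fin.val_zero, add_zero, h1]
      rfl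
    · have h1 := ih (m + 1) (fun j => F j.succ) (Fin.tail P) (by
        intro j
        have h2 := hT j.succ
        rw [Fin.val_succ] at h2
        have e1 : m + 1 + (j : ℕ) + 1 = m + ((j : ℕ) + 1) + 1 := by omega
        have e2 : m + 1 + (j : ℕ) = m + ((j : ℕ) + 1) := by omega
        rw [e1, e2, h2]
        rfl) j
      have e1 : m + 1 + (j : ℕ) + 1 = m + ((j.succ : Fin (n + 1)) : ℕ) + 1 := by
        rw [Fin.val_succ]
        omega
      rw [← e1, ← h1]
      change valsF k n (fun j => F j.succ) (fun j => nxt m j.succ)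
        (nxt m (0 : Fin (n + 1)) (upTo T m) (F 0 (upTo T m) (P 0))) (Fin.tail P) j = _
      have h3 : nxt m (0 : Fin (n + 1)) (upTo T m) (F 0 (upTo T m) (P 0)) = upTo T (m + 1) := by
        have h4 := hT 0
        rw [Fin.val_zero, add_zero] at h4
        rw [← h4, ← upTo_update]
        rfl
      rw [h3, nxt_succ]

theorem AdmF_tower {k : ℕ} : ∀ {n : ℕ} (m : ℕ)
    (F : Fin n → (ℕ → ℂ) → (Fin k → ℚ) → ℂ) (s : ℕ → ℂ),
    (∀ i ≤ m, Transcendental ℚ (s i)) →
    (∀ (j : Fin n) (h : ℕ → ℂ), (∀ i ≤ m + j, Transcendental ℚ (h i)) → Fine k (F j h)) →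
    AdmF k n F (nxt m) s := by
  intro n
  induction n with
  | zero => intro m F s _ _; trivial
  | succ n ih =>
    intro m F s hs hF
    refine ⟨hF 0 s (by simpa using hs), fun v hv => ?_⟩
    rw [nxt_succ]
    refine ih (m + 1) (fun j => F j.succ) _ ?_ ?_
    · intro i hi
      unfold nxt
      rw [Fin.val_zero, add_zero]
      by_cases h : i = m + 1
      · rw [h, Function.update_self]
        exact hv
      · rw [Function.update_of_ne h]
        exact hs i (by omega)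
    · intro j h hh
      refine hF j.succ h (fun i hi => hh i ?_)
      rw [Fin.val_succ] at hi
      omega

open Classical in
/-- **Random towers.** -/
theorem towersF (D n N : ℕ) : ∃ (k₀ C : ℕ) (δ : ℝ), 0 < δ ∧ δ ≤ 1 / 4 ∧ ∀ k ≥ k₀,
    ∀ A : Finset ℚ, A.Nonempty → ∀ W : Submodule QB ℂ, Module.Finite QB W → finrank QB W ≤ N →
    ∀ t : ℂ, Transcendental ℚ t → ∀ F : Fin n → (ℕ → ℂ) → (Fin k → ℚ) → ℂ,
    (∀ (j : Fin n) (h : ℕ → ℂ), (∀ i ≤ (j : ℕ), Transcendental ℚ (h i)) → Fine k (F j h)) →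
    (((Fintype.piFinset fun _ : Fin n => Fintype.piFinset fun _ : Fin k => A).filter
      (fun P : Fin n → Fin k → ℚ => ∃ T : ℕ → ℂ, T 0 = t ∧
        (∀ j : Fin n, T (j + 1) = F j (upTo T j) (P j)) ∧
        RelW W D (fun j : Fin n => T (j + 1)))).card : ℝ) ≤
      C * (A.card : ℝ) ^ ((n * k : ℝ) - δ * k) := by
  obtain ⟨k₀, C, δ, hδ, hδ', h⟩ := processF D n N
  refine ⟨k₀, C, δ, hδ, hδ', fun k hk A hA W hW hWN t ht F hF => ?_⟩
  have hs : ∀ T : ℕ → ℂ, T 0 = t → upTo T 0 = (fun i => if i ≤ 0 then t else 0) := by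
    intro T hT
    funext i
    unfold upTo
    by_cases hi : i ≤ 0
    · rw [if_pos hi, if_pos hi, Nat.le_zero.1 hi, hT]
    · rw [if_neg hi, if_neg hi]
  have hadm := AdmF_tower (k := k) 0 F (fun i => if i ≤ 0 then t else 0) (by
    intro i hi
    rw [if_pos hi]
    exact ht) (by
    intro j h hh
    exact hF j h (fun i hi => hh i (by omega)))
  refine le_trans ?_ (h k hk A hA W hW hWN (ℕ → ℂ) F (nxt 0) _ hadm)
  apply Nat.cast_le.2
  apply Finset.card_le_card
  intro P hP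
  rw [Finset.mem_filter] at hP ⊢
  obtain ⟨hPA, T, hT0, hT, hR⟩ := hP
  refine ⟨hPA, fun hI => not_relW (T := fun j : Fin n => T (j + 1)) ?_ hR⟩
  have h1 := valsF_tower T 0 F P (by
    intro j
    rw [zero_add]
    exact hT j)
  rw [hs T hT0] at h1
  convert hI using 2 with j
  have h2 := h1 j
  rw [zero_add] at h2
  exact congrArg (pw D) h2.symm

theorem fine_pow {k : ℕ} {T lam : ℂ} (hT : Transcendental ℚ T) (hlam : lam ≠ 0) (ζ : ℂ) :
    Fine k (fun p => Complex.exp (ζ + lam * ∑ i : Fin k, (p i : ℂ) * T ^ (i : ℕ))) := by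
  refine Or.inl ⟨ζ, fun i => lam * T ^ i, half_pow_transcendental hT hlam k, fun p => ?_⟩
  change Complex.exp (ζ + lam * ∑ i : Fin k, (p i : ℂ) * T ^ (i : ℕ)) =
    Complex.exp (ζ + ∑ i : Fin k, (p i : ℂ) * (lam * T ^ (i : ℕ)))
  rw [Finset.mul_sum]
  refine congrArg (fun z => Complex.exp (ζ + z)) (Finset.sum_congr rfl fun i _ => ?_)
  ring

end Pool.Agent.Y918.RP
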