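import Mathlib
import Pool.Agent.H297R2.BakerThm
import Pool.Agent.H340R2.LW2
import Pool.Agent.Y918.RP.Final

set_option autoImplicit false

/-!
# Exponentials of algebraic numbers and logarithms
-/

namespace Pool.Agent.Y918.RP

open Module Finset
open Pool.Agent.H301R2.SSE (QB mem_QB)
open Pool.Agent.W245 (IndepOver IndepT famExt famExt_finite)
open Pool.Agent.Y918.RT (VA mem_VA card_coset pw)

theorem li_QB_of_logs {k : ℕ} {x : Fin k → ℂ} (halg : ∀ i, IsAlgebraic ℚ (Complex.exp (x i)))
    (hx : LinearIndependent ℚ x) : LinearIndependent QB x := by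
  rw [Fintype.linearIndependent_iff]
  intro g hg i
  have h1 := Pool.Agent.H297R2.baker x halg hx (fun i => (g i : ℂ))
    (fun i => mem_QB.1 (g i).2) (by
      rw [← hg]
      refine Finset.sum_congr rfl fun i _ => ?_
      rw [Algebra.smul_def]
      rfl) i
  exact Subtype.ext h1

theorem fine_li {k : ℕ} {x : Fin k → ℂ} (hx : LinearIndependent QB x) (ζ : ℂ) :
    Fine k (fun p => ζ + ∑ i : Fin k, (p i : ℂ) * x i) := by
  refine Or.inr ⟨ζ, fun i => if h : i < k then x ⟨i, h⟩ else 0, ?_, fun p => ?_⟩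
  · convert hx using 1
    funext i
    exact dif_pos i.2
  · change ζ + ∑ i : Fin k, (p i : ℂ) * x i = ζ + ∑ i : Fin k, (p i : ℂ) *
      (if h : (i : ℕ) < k then x ⟨i, h⟩ else 0)
    refine congrArg (fun z => ζ + z) (Finset.sum_congr rfl fun i _ => ?_)
    rw [dif_pos i.2]

/-- The space generated by the monomials in the exponentials. -/
noncomputable def expSpan (D : ℕ) {l : ℕ} (α : Fin l → ℂ) : Submodule QB ℂ :=
  Submodule.span QB (Set.range fun s : Fin l → Fin (D + 1) =>
    Complex.exp (∑ i, ((s i : ℕ) : ℂ) * α i))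

theorem expSpan_finite (D : ℕ) {l : ℕ} (α : Fin l → ℂ) : Module.Finite QB (expSpan D α) ∧
    finrank QB (expSpan D α) ≤ (D + 1) ^ l := by
  constructor
  · exact FiniteDimensional.span_of_finite QB (Set.finite_range _)
  · refine (finrank_range_le_card _).trans ?_
    rw [Fintype.card_fun, Fintype.card_fin, Fintype.card_fin]

/-- The exponent vectors of a pair. -/
noncomputable def expoS {l n D : ℕ} (s : (Fin l → Fin (D + 1)) × (Fin n → Fin (D + 1))) :
    (Fin l ⊕ Fin n) →₀ ℕ :=
  Finsupp.equivFunOnFinite.symm (Sum.elim (fun i => (s.1 i : ℕ)) (fun j => (s.2 j : ℕ)))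

theorem expoS_injective {l n D : ℕ} : Function.Injective (expoS (l := l) (n := n) (D := D)) := by
  intro s s' h
  refine Prod.ext (funext fun i => ?_) (funext fun j => ?_)
  · exact Fin.ext (DFunLike.congr_fun h (Sum.inl i))
  · exact Fin.ext (DFunLike.congr_fun h (Sum.inr j))

theorem no_relation_exp {l n D : ℕ} (α : Fin l → ℂ) (hα : ∀ i, IsAlgebraic ℚ (α i))
    (hli : LinearIndependent ℚ α) (y : Fin n → ℂ)
    (h : IndepT (expSpan D α) (fun j => pw D (y j)))
    (p : MvPolynomial (Fin l ⊕ Fin n) QB) (hdeg : ∀ i, p.degreeOf i ≤ D)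
    (h0 : MvPolynomial.aeval (Sum.elim (fun i => Complex.exp (α i)) y) p = 0) : p = 0 := by
  classical
  have hsupp : p.support ⊆
      (univ : Finset ((Fin l → Fin (D + 1)) × (Fin n → Fin (D + 1)))).image expoS := by
    intro M hM
    rw [Finset.mem_image]
    refine ⟨(fun i => ⟨M (Sum.inl i),
      Nat.lt_succ_of_le ((MvPolynomial.degreeOf_le_iff.1 (hdeg (Sum.inl i))) M hM)⟩,
      fun j => ⟨M (Sum.inr j),
      Nat.lt_succ_of_le ((MvPolynomial.degreeOf_le_iff.1 (hdeg (Sum.inr j))) M hM)⟩),
      Finset.mem_univ _, ?_⟩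
    ext v
    rcases v with v | v
    · rfl
    · rfl
  have h1 : ∑ t : Fin n → Fin (D + 1), (∑ s : Fin l → Fin (D + 1),
      ((p.coeff (expoS (s, t)) : QB) : ℂ) * Complex.exp (∑ i, ((s i : ℕ) : ℂ) * α i)) *
      ∏ j, pw D (y j) (t j) = 0 := by
    rw [← h0, MvPolynomial.aeval_def, MvPolynomial.eval₂_eq']
    rw [Finset.sum_subset hsupp (by
      intro M _ hM
      rw [MvPolynomial.notMem_support_iff.1 hM, map_zero, zero_mul])]
    rw [Finset.sum_image (fun a _ b _ h => expoS_injective h), Fintype.sum_prod_type_right]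
    refine Finset.sum_congr rfl fun t _ => ?_
    rw [Finset.sum_mul]
    refine Finset.sum_congr rfl fun s _ => ?_
    rw [mul_assoc]
    refine congrArg (fun z => ((p.coeff (expoS (s, t)) : QB) : ℂ) * z) ?_
    rw [Fintype.prod_sum_type]
    refine congrArg (fun z => z * ∏ j, pw D (y j) (t j)) ?_
    rw [Complex.exp_sum]
    refine Finset.prod_congr rfl fun i _ => ?_
    rw [Complex.exp_nat_mul]
    rfl
  have h2 := h _ (fun t => Submodule.sum_mem _ fun s _ => by
    have h3 := Submodule.smul_mem (expSpan D α) (p.coeff (expoS (s, t)))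
      (Submodule.subset_span (Set.mem_range_self s))
    rw [Algebra.smul_def] at h3
    exact h3) h1
  have h4 : ∀ (s : Fin l → Fin (D + 1)) (t : Fin n → Fin (D + 1)),
      p.coeff (expoS (s, t)) = 0 := by
    intro s t
    have h5 := Pool.Agent.H340R2.LW.lindemann_weierstrass
      (Finset.univ : Finset (Fin l → Fin (D + 1)))
      (fun s => ∑ i, ((s i : ℕ) : ℂ) * α i) (fun s => ((p.coeff (expoS (s, t)) : QB) : ℂ))
      (fun s _ => mem_QB.1 (sum_mem fun i _ => mul_mem (natCast_mem QB _) (mem_QB.2 (hα i))))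
      (fun s _ => mem_QB.1 (p.coeff (expoS (s, t))).2) (by
        intro s _ s' _ hss
        have h6 := Fintype.linearIndependent_iff.1 hli
          (fun i => ((s i : ℕ) : ℚ) - ((s' i : ℕ) : ℚ)) (by
            have h7 : ∑ i, ((s i : ℕ) : ℂ) * α i - ∑ i, ((s' i : ℕ) : ℂ) * α i = 0 :=
              sub_eq_zero.2 hss
            rw [← Finset.sum_sub_distrib] at h7
            rw [← h7]
            refine Finset.sum_congr rfl fun i _ => ?_
            rw [Rat.smul_def]
            push_cast
            ring)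
        funext i
        have h8 := h6 i
        have h9 : ((s i : ℕ) : ℚ) = ((s' i : ℕ) : ℚ) := sub_eq_zero.1 h8
        exact Fin.ext (by exact_mod_cast h9))
      (h2 t) s (Finset.mem_univ _)
    exact Subtype.ext h5
  ext1 M
  rw [MvPolynomial.coeff_zero]
  by_cases hM : M ∈ p.support
  · obtain ⟨s, _, rfl⟩ := Finset.mem_image.1 (hsupp hM)
    exact h4 s.1 s.2
  · exact MvPolynomial.notMem_support_iff.1 hM

end Pool.Agent.Y918.RP
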